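import Pool.Agent.X33.DissI

set_option autoImplicit false

namespace Pool.Agent.Results.MP_6c00f2_co.IntegerLimit

open Pool.Agent.X33.DS

/-- For every `m` there is a bound `P` such that `dim(G, m) = dim(ℤ, m)` for all finite abelian
groups `G ≠ 0` such that all prime factors of the order of `G` exceed `P`. Here `dim(ℤ, m)` is the
least dissociativity dimension of a set of `m` integers. -/
theorem result (m : ℕ) : ∃ P : ℕ, ∀ (G : Type*) [AddCommGroup G] [Finite G], 1 < Nat.card G →
    (∀ p : ℕ, p.Prime → p ∣ Nat.card G → P < p) → dimGroup G m = dimGroup ℤ m :=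
  limitZ m

end Pool.Agent.Results.MP_6c00f2_co.IntegerLimit
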