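import Pool.Agent.X33.DissJ

set_option autoImplicit false

namespace Pool.Agent.Results.MP_6c00f2_co.LogBoundsLargePrimes

open Pool.Agent.X33.DS

/-- Let `m ≥ 1` and let `G` be a finite abelian group (cyclic or not) with more than one element
such that all prime factors of its order exceed `(m+1)^m + m^2`. Then
`⌊log₂ m⌋ - 19 ≤ dim(G, m) ≤ ⌊log₂ m⌋ + ⌊log₂ ⌊log₂ m⌋⌋ + 1`. -/
theorem result {G : Type*} [AddCommGroup G] [Finite G] (m : ℕ) (hm : 1 ≤ m)
    (hG : 1 < Nat.card G)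
    (hp : ∀ p : ℕ, p.Prime → p ∣ Nat.card G → (m + 1) ^ m + m * m < p) :
    Nat.log 2 m ≤ dimGroup G m + 19 ∧
      dimGroup G m ≤ Nat.log 2 m + Nat.log 2 (Nat.log 2 m) + 1 :=
  bounds m hm hG hp

end Pool.Agent.Results.MP_6c00f2_co.LogBoundsLargePrimes
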