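import Pool.Agent.X33.DissN

set_option autoImplicit false

namespace Pool.Agent.Results.MP_6c00f2_co.NearFullCyclic

open Pool.Agent.X33.DS

/-- Let `w > 1` be an odd divisor of `n` (for instance the odd part of `n`, for any `n` that is not
a power of two), `2^k ≤ n < 2^(k+1)` and `m ≤ n` so close to `n` that `2k⌊(n-m)/2⌋ < φ(w)`. Then
`dim(Z_n, m) = k = ⌊log₂ n⌋`.
In particular for `n = 2^k+1`, `k ≥ 4`, and `m = 2^k-2` or `m = 2^k-1` the value is `k`,
while `⌊log₂ m⌋ = k-1`, so the conjecture `dim(Z_n,m) = ⌊log₂ m⌋` fails. -/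
theorem result :
    (∀ n w k m : ℕ, Odd w → 1 < w → w ∣ n → 2 ^ k ≤ n → n < 2 ^ (k + 1) → m ≤ n →
      2 * k * ((n - m) / 2) < Nat.totient w → dimGroup (ZMod n) m = k) ∧
    (∀ k m : ℕ, 4 ≤ k → (m = 2 ^ k - 2 ∨ m = 2 ^ k - 1) →
      dimGroup (ZMod (2 ^ k + 1)) m = k ∧ Nat.log 2 m = k - 1) := by
  refine ⟨exact_valueAll, ?_⟩
  intro k m hk hm
  have hk16 : 16 ≤ 2 ^ k := by
    calc 16 = 2 ^ 4 := by norm_num
      _ ≤ 2 ^ k := Nat.pow_le_pow_right (by norm_num) hk
  have hs : 2 ^ (k + 1) = 2 * 2 ^ k := by rw [pow_succ]; ring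
  have htot := totient_big k hk
  constructor
  · apply exact_valueAll (2 ^ k + 1) (2 ^ k + 1)
    · exact (Nat.even_pow.mpr ⟨even_two, by omega⟩).add_one
    · omega
    · exact dvd_rfl
    · omega
    · omega
    · omega
    · have h5 : (2 ^ k + 1 - m) / 2 = 1 := by omega
      rw [h5, mul_one]
      exact htot
  · have hs' : 2 ^ k = 2 * 2 ^ (k - 1) := by
      rw [← pow_succ']
      congr 1
      omega
    apply log_val
    · omega
    · rw [show k - 1 + 1 = k by omega]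
      omega

end Pool.Agent.Results.MP_6c00f2_co.NearFullCyclic
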