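import Pool.Agent.X33.DissH
import Pool.Agent.X33.DissQ

set_option autoImplicit false

namespace Pool.Agent.Results.MP_6c00f2_co.SmallSetsLargePrimes

open Pool.Agent.X33.DS

/-- Let `G ≠ 0` be a finite abelian group (cyclic or not) such that all prime factors of its order
exceed `4^7`. Then `dim(G, m) = 1, 2, 3, 4` for `m` in `[2,3], [4,7], [8,13], [14,25]`.
In particular for `m = 14, 15` the value is not `⌊log₂ m⌋ = 3`, so the conjecture
`dim(Z_n, m) = ⌊log₂ m⌋` fails for every prime `n > 4^7`. -/
theorem result {G : Type*} [AddCommGroup G] [Finite G] (hG : 1 < Nat.card G)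
    (hp : ∀ p : ℕ, p.Prime → p ∣ Nat.card G → 4 ^ 7 < p) :
    (∀ m : ℕ, 2 ≤ m → m ≤ 25 → dimGroup G m =
      if m ≤ 3 then 1 else if m ≤ 7 then 2 else if m ≤ 13 then 3 else 4) ∧
    (∀ m : ℕ, (m = 14 ∨ m = 15) → dimGroup G m = 4 ∧ Nat.log 2 m = 3) := by
  have h3 : ∀ m : ℕ, 2 ≤ m → m ≤ 25 →
      dimGroup G m =
        if m ≤ 3 then 1 else if m ≤ 7 then 2 else if m ≤ 13 then 3 else 4 := by
    intro m hm1 hm2
    by_cases h1 : m ≤ 3
    · rw [if_pos h1]
      exact small_valueG 1 1 1 m hG hp (by norm_num) (by norm_num) (by norm_num) P11 Q11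
        (by omega) (by omega)
    rw [if_neg h1]
    by_cases h2 : m ≤ 7
    · rw [if_pos h2]
      exact small_valueG 2 2 3 m hG hp (by norm_num) (by norm_num) (by norm_num) P22 Q32
        (by omega) (by omega)
    rw [if_neg h2]
    by_cases h3 : m ≤ 13
    · rw [if_pos h3]
      exact small_valueG 4 3 6 m hG hp (by norm_num) (by norm_num) (by norm_num) P43 Q63
        (by omega) (by omega)
    rw [if_neg h3]
    exact small_valueG 7 4 12 m hG hp (by norm_num) (by norm_num) (by norm_num) P74 Q124
      (by omega) (by omega)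
  refine ⟨h3, ?_⟩
  intro m hm
  constructor
  · rw [h3 m (by omega) (by omega)]
    rw [if_neg (by omega), if_neg (by omega), if_neg (by omega)]
  · rcases hm with rfl | rfl
    · exact log_val 3 14 (by norm_num) (by norm_num)
    · exact log_val 3 15 (by norm_num) (by norm_num)

end Pool.Agent.Results.MP_6c00f2_co.SmallSetsLargePrimes
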